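import Pool.Agent.W682.TW.Stm

/-! Project TW, part VAL: the trigonometric integrals. -/

set_option autoImplicit false

open MeasureTheory Set
open Pool.Agent.W682.TW

namespace Pool.Agent.W135.TW.Val

/-- one dimensional exponentials -/
noncomputable def e1 (m : ℤ) (t : ℝ) : ℂ := Complex.exp (2 * Real.pi * m * t * Complex.I)

lemma integral_e1 (m : ℤ) : ∫ t in Icc (0 : ℝ) 1, e1 m t = if m = 0 then 1 else 0 := by
  rw [integral_Icc_eq_integral_Ioc, ← intervalIntegral.integral_of_le zero_le_one]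
  split_ifs with h
  · subst h
    simp [e1]
  · have hc : (2 * Real.pi * m * Complex.I : ℂ) ≠ 0 := by
      have : (m : ℂ) ≠ 0 := by exact_mod_cast h
      simp [this, Real.pi_ne_zero, Complex.I_ne_zero]
    have h1 : ∀ t : ℝ, e1 m t = Complex.exp ((2 * Real.pi * m * Complex.I) * t) := by
      intro t
      unfold e1
      congr 1
      ring
    simp_rw [h1]
    rw [integral_exp_mul_complex hc]
    have h2 : Complex.exp (2 * Real.pi * m * Complex.I * ((1 : ℝ) : ℂ)) = 1 := by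
      rw [Complex.exp_eq_one_iff]
      exact ⟨m, by push_cast; ring⟩
    rw [h2]
    simp

lemma integral_prod' (f : Fin 2 → ℝ → ℂ) :
    ∫ x in cube, ∏ i, f i (x i) = ∏ i, ∫ t in Icc (0 : ℝ) 1, f i t := by
  have h1 : (volume : Measure (Fin 2 → ℝ)).restrict cube
      = Measure.pi (fun _ : Fin 2 => (volume : Measure ℝ).restrict (Icc (0 : ℝ) 1)) := by
    unfold cube
    rw [volume_pi]
    exact Measure.restrict_pi_pi _ _
  rw [h1]
  exact integral_fintype_prod_eq_prod (f := f)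

/-- plane wave -/
noncomputable def cc (k : Fin 2 → ℤ) (x : Fin 2 → ℝ) : ℝ :=
  Real.cos (2 * Real.pi * ((k 0 : ℝ) * x 0 + (k 1 : ℝ) * x 1))

lemma cc_cont (k : Fin 2 → ℤ) : Continuous (cc k) := by
  unfold cc
  fun_prop

lemma cube_compact : IsCompact cube := isCompact_univ_pi fun _ => isCompact_Icc

lemma intOn {f : (Fin 2 → ℝ) → ℝ} (hf : Continuous f) : IntegrableOn f cube :=
  hf.continuousOn.integrableOn_compact cube_compact

lemma int_cc (k : Fin 2 → ℤ) : ∫ x in cube, cc k x = if k = 0 then 1 else 0 := by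
  have h1 : ∀ x : Fin 2 → ℝ, cc k x = Complex.reCLM (∏ i, e1 (k i) (x i)) := by
    intro x
    rw [Fin.prod_univ_two]
    unfold e1
    rw [← Complex.exp_add]
    have e : 2 * (Real.pi : ℂ) * (k 0 : ℂ) * (x 0 : ℂ) * Complex.I
        + 2 * (Real.pi : ℂ) * (k 1 : ℂ) * (x 1 : ℂ) * Complex.I =
        ((2 * Real.pi * ((k 0 : ℝ) * x 0 + (k 1 : ℝ) * x 1) : ℝ) : ℂ) * Complex.I := by
      push_cast; ring
    rw [e]
    show _ = (Complex.exp _).re
    rw [Complex.exp_ofReal_mul_I_re]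
    rfl
  simp_rw [h1]
  have hint : Integrable (fun x : Fin 2 → ℝ => ∏ i, e1 (k i) (x i)) (volume.restrict cube) := by
    have hc : Continuous (fun x : Fin 2 → ℝ => ∏ i, e1 (k i) (x i)) := by
      unfold e1
      fun_prop
    exact hc.continuousOn.integrableOn_compact cube_compact
  rw [ContinuousLinearMap.integral_comp_comm _ hint, integral_prod' (fun i => e1 (k i)),
    Fin.prod_univ_two, integral_e1, integral_e1]
  by_cases h0 : k 0 = 0
  · by_cases h2 : k 1 = 0
    · have : k = 0 := by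
        funext i
        fin_cases i
        · exact h0
        · exact h2
      rw [if_pos h0, if_pos h2, if_pos this]
      simp
    · have : k ≠ 0 := fun h => h2 (by rw [h]; rfl)
      rw [if_pos h0, if_neg h2, if_neg this]
      simp
  · have : k ≠ 0 := fun h => h0 (by rw [h]; rfl)
    rw [if_neg h0, if_neg this]
    simp

lemma cc_mul (k l : Fin 2 → ℤ) (x : Fin 2 → ℝ) :
    cc k x * cc l x = (cc (k + l) x + cc (k - l) x) / 2 := by
  unfold cc
  have e1 : 2 * Real.pi * ((((k + l) 0 : ℤ) : ℝ) * x 0 + (((k + l) 1 : ℤ) : ℝ) * x 1) =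
      2 * Real.pi * ((k 0 : ℝ) * x 0 + (k 1 : ℝ) * x 1)
        + 2 * Real.pi * ((l 0 : ℝ) * x 0 + (l 1 : ℝ) * x 1) := by
    simp only [Pi.add_apply]; push_cast; ring
  have e2 : 2 * Real.pi * ((((k - l) 0 : ℤ) : ℝ) * x 0 + (((k - l) 1 : ℤ) : ℝ) * x 1) =
      2 * Real.pi * ((k 0 : ℝ) * x 0 + (k 1 : ℝ) * x 1)
        - 2 * Real.pi * ((l 0 : ℝ) * x 0 + (l 1 : ℝ) * x 1) := by
    simp only [Pi.sub_apply]; push_cast; ring
  rw [e1, e2, Real.cos_add, Real.cos_sub]
  ring

lemma J_add {f g : (Fin 2 → ℝ) → ℝ} (hf : Continuous f) (hg : Continuous g) :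
    ∫ x in cube, (f x + g x) = (∫ x in cube, f x) + ∫ x in cube, g x :=
  integral_add (intOn hf) (intOn hg)

lemma J_sub {f g : (Fin 2 → ℝ) → ℝ} (hf : Continuous f) (hg : Continuous g) :
    ∫ x in cube, (f x - g x) = (∫ x in cube, f x) - ∫ x in cube, g x :=
  integral_sub (intOn hf) (intOn hg)

lemma J_sum {ι : Type} (s : Finset ι) {f : ι → (Fin 2 → ℝ) → ℝ} (hf : ∀ i ∈ s, Continuous (f i)) :
    ∫ x in cube, ∑ i ∈ s, f i x = ∑ i ∈ s, ∫ x in cube, f i x :=
  integral_finsetSum _ fun i hi => intOn (hf i hi)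

lemma J_mul (c : ℝ) (f : (Fin 2 → ℝ) → ℝ) :
    ∫ x in cube, c * f x = c * ∫ x in cube, f x := integral_const_mul _ _

lemma int2 (k l : Fin 2 → ℤ) : ∫ x in cube, cc k x * cc l x =
    ((if k + l = 0 then 1 else 0) + (if k - l = 0 then 1 else 0)) / 2 := by
  have h1 : ∀ x, cc k x * cc l x = (1 / 2) * (cc (k + l) x + cc (k - l) x) := by
    intro x; rw [cc_mul]; ring
  simp_rw [h1]
  rw [J_mul, J_add (cc_cont _) (cc_cont _), int_cc, int_cc]
  ring

lemma int3 (k l m : Fin 2 → ℤ) : ∫ x in cube, cc k x * cc l x * cc m x =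
    ((if k + l + m = 0 then 1 else 0) + (if k + l - m = 0 then 1 else 0) +
      (if k - l + m = 0 then 1 else 0) + (if k - l - m = 0 then 1 else 0)) / 4 := by
  have h1 : ∀ x, cc k x * cc l x * cc m x =
      (1 / 2) * (cc (k + l) x * cc m x + cc (k - l) x * cc m x) := by
    intro x; rw [cc_mul]; ring
  simp_rw [h1]
  have e := J_add (f := fun x => cc (k + l) x * cc m x) (g := fun x => cc (k - l) x * cc m x)
    ((cc_cont _).mul (cc_cont _)) ((cc_cont _).mul (cc_cont _))
  rw [J_mul, e, int2, int2]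
  ring

variable (n : ℕ)

/-- the wave vectors -/
def ka (i : Fin n) : Fin 2 → ℤ := kv n (.inr (.inl i))
def kb (j : Fin n) : Fin 2 → ℤ := kv n (.inr (.inr j))
def kc (s : Fin (2 * n)) : Fin 2 → ℤ := kv n (.inl (.inr s))

lemma ka0 (i : Fin n) : ka n i 0 = 1 := rfl
lemma ka1 (i : Fin n) : ka n i 1 = (i.val : ℤ) + 1 := rfl
lemma kb0 (i : Fin n) : kb n i 0 = 2 * (n : ℤ) + 1 := rfl
lemma kb1 (i : Fin n) : kb n i 1 = (i.val : ℤ) + 1 := rfl
lemma kc0 (i : Fin (2 * n)) : kc n i 0 = 2 * (n : ℤ) + 2 := rfl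
lemma kc1 (i : Fin (2 * n)) : kc n i 1 = (i.val : ℤ) + 2 := rfl

lemma cos_ph (ι : Ix n) (x : Fin 2 → ℝ) : Real.cos (ph n ι x) = cc (kv n ι) x := rfl

/-- a vector with nonzero first coordinate is not zero -/
lemma ne0 {k : Fin 2 → ℤ} (h : k 0 ≠ 0) : k ≠ 0 := fun h0 => h (by rw [h0]; rfl)

lemma int_a (i : Fin n) : ∫ x in cube, cc (ka n i) x = 0 := by
  rw [int_cc, if_neg (ne0 (by rw [ka0]; norm_num))]

lemma int_c (i : Fin (2 * n)) : ∫ x in cube, cc (kc n i) x = 0 := by
  rw [int_cc, if_neg (ne0 (by rw [kc0]; omega))]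

lemma int_ab (hn : 1 ≤ n) (i j : Fin n) : ∫ x in cube, cc (ka n i) x * cc (kb n j) x = 0 := by
  rw [int2, if_neg (ne0 _), if_neg (ne0 _)]
  · norm_num
  · rw [Pi.sub_apply, ka0, kb0]; omega
  · rw [Pi.add_apply, ka0, kb0]; omega

lemma int_aa (i j : Fin n) : ∫ x in cube, cc (ka n i) x * cc (ka n j) x =
    if i = j then 1 / 2 else 0 := by
  rw [int2, if_neg (ne0 _)]
  · by_cases h : i = j
    · subst h
      rw [if_pos (sub_self _), if_pos rfl]; norm_num
    · rw [if_neg, if_neg h]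
      · norm_num
      · intro h0
        have := congrFun h0 1
        rw [Pi.sub_apply, ka1, ka1] at this
        apply h
        apply Fin.ext
        have h2 : (i.val : ℤ) + 1 - ((j.val : ℤ) + 1) = 0 := this
        omega
  · rw [Pi.add_apply, ka0, ka0]; norm_num

lemma int_bb (i : Fin n) : ∫ x in cube, cc (kb n i) x * cc (kb n i) x = 1 / 2 := by
  rw [int2, if_neg (ne0 _), if_pos (sub_self _)]
  · norm_num
  · rw [Pi.add_apply, kb0]; omega

lemma int_cc' (i j : Fin (2 * n)) : ∫ x in cube, cc (kc n i) x * cc (kc n j) x =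
    if i = j then 1 / 2 else 0 := by
  rw [int2, if_neg (ne0 _)]
  · by_cases h : i = j
    · subst h
      rw [if_pos (sub_self _), if_pos rfl]; norm_num
    · rw [if_neg, if_neg h]
      · norm_num
      · intro h0
        have := congrFun h0 1
        rw [Pi.sub_apply, kc1, kc1] at this
        apply h
        apply Fin.ext
        have h2 : (i.val : ℤ) + 2 - ((j.val : ℤ) + 2) = 0 := this
        omega
  · rw [Pi.add_apply, kc0, kc0]; omega

lemma int_ca (i : Fin (2 * n)) (j : Fin n) : ∫ x in cube, cc (kc n i) x * cc (ka n j) x = 0 := by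
  rw [int2, if_neg (ne0 _), if_neg (ne0 _)]
  · norm_num
  · rw [Pi.sub_apply, kc0, ka0]; omega
  · rw [Pi.add_apply, kc0, ka0]; omega

lemma int_cab (s : Fin (2 * n)) (i j : Fin n) :
    ∫ x in cube, cc (kc n s) x * cc (ka n i) x * cc (kb n j) x =
      if s.val = i.val + j.val then 1 / 4 else 0 := by
  rw [int3, if_neg (ne0 _), if_neg (ne0 _), if_neg (ne0 _)]
  · by_cases h : s.val = i.val + j.val
    · rw [if_pos, if_pos h]
      · norm_num
      · funext l
        fin_cases l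
        · show kc n s 0 - ka n i 0 - kb n j 0 = 0
          rw [kc0, ka0, kb0]; ring
        · show kc n s 1 - ka n i 1 - kb n j 1 = 0
          rw [kc1, ka1, kb1]; omega
    · rw [if_neg, if_neg h]
      · norm_num
      · intro h0
        have h1 : kc n s 1 - ka n i 1 - kb n j 1 = 0 := congrFun h0 1
        rw [kc1, ka1, kb1] at h1
        apply h
        omega
  · rw [Pi.add_apply, Pi.sub_apply, kc0, ka0, kb0]; omega
  · rw [Pi.sub_apply, Pi.add_apply, kc0, ka0, kb0]; omega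
  · rw [Pi.add_apply, Pi.add_apply, kc0, ka0, kb0]; omega

lemma int_aab (l i j : Fin n) :
    ∫ x in cube, cc (ka n l) x * cc (ka n i) x * cc (kb n j) x = 0 := by
  rw [int3, if_neg (ne0 _), if_neg (ne0 _), if_neg (ne0 _), if_neg (ne0 _)]
  · norm_num
  · rw [Pi.sub_apply, Pi.sub_apply, ka0, ka0, kb0]; omega
  · rw [Pi.add_apply, Pi.sub_apply, ka0, ka0, kb0]; omega
  · rw [Pi.sub_apply, Pi.add_apply, ka0, ka0, kb0]; omega
  · rw [Pi.add_apply, Pi.add_apply, ka0, ka0, kb0]; omega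

variable {n}

/-- continuous with given integral -/
def HI (f : (Fin 2 → ℝ) → ℝ) (v : ℝ) : Prop := Continuous f ∧ ∫ x in cube, f x = v

lemma HI.add {f g : (Fin 2 → ℝ) → ℝ} {a b : ℝ} (hf : HI f a) (hg : HI g b) :
    HI (fun x => f x + g x) (a + b) :=
  ⟨hf.1.add hg.1, by rw [J_add hf.1 hg.1, hf.2, hg.2]⟩

lemma HI.sub {f g : (Fin 2 → ℝ) → ℝ} {a b : ℝ} (hf : HI f a) (hg : HI g b) :
    HI (fun x => f x - g x) (a - b) :=
  ⟨hf.1.sub hg.1, by rw [J_sub hf.1 hg.1, hf.2, hg.2]⟩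

lemma HI.mulc {f : (Fin 2 → ℝ) → ℝ} {a : ℝ} (hf : HI f a) (c : ℝ) :
    HI (fun x => c * f x) (c * a) :=
  ⟨continuous_const.mul hf.1, by rw [J_mul, hf.2]⟩

lemma HI.sum {ι : Type} (s : Finset ι) {f : ι → (Fin 2 → ℝ) → ℝ} {a : ι → ℝ}
    (hf : ∀ i ∈ s, HI (f i) (a i)) : HI (fun x => ∑ i ∈ s, f i x) (∑ i ∈ s, a i) :=
  ⟨continuous_finsetSum _ fun i hi => (hf i hi).1, by
    rw [J_sum s fun i hi => (hf i hi).1]
    exact Finset.sum_congr rfl fun i hi => (hf i hi).2⟩

lemma HI.to {f g : (Fin 2 → ℝ) → ℝ} {a b : ℝ} (hf : HI f a) (h : ∀ x, g x = f x) (e : a = b) :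
    ∫ x in cube, g x = b := by
  rw [← e, ← hf.2]
  exact congrArg (fun F : (Fin 2 → ℝ) → ℝ => ∫ x in cube, F x) (funext h)

lemma first (hn : 1 ≤ n) (hnR : (n : ℝ) = 16384) (σ : ℕ → ℝ) (α : ℝ) (hσ : Sgn σ) :
    (∫ x in cube, (thx n σ α x * pf n σ (Af n α x) (Bf n α x)
      + 6 * Pool.Agent.W682.TW.sq (Af n α x)
      + 6 * Pool.Agent.W682.TW.sq (Bf n α x))) = -(n : ℝ) * α ^ 2 := by
  set w : Fin (2 * n) → ℝ := fun s => -(7 / 4096) * σ s.val with hw
  have h1 : ∀ x, thx n σ α x * pf n σ (Af n α x) (Bf n α x) =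
      ∑ i : Fin n, ∑ j : Fin n,
        ((σ (i.val + j.val) * α ^ 2 / 2) * (cc (ka n i) x * cc (kb n j) x)
        + ∑ s : Fin (2 * n), (σ (i.val + j.val) * α ^ 2 * w s) *
            (cc (kc n s) x * cc (ka n i) x * cc (kb n j) x)
        + ∑ l : Fin n, (σ (i.val + j.val) * α ^ 3) *
            (cc (ka n l) x * cc (ka n i) x * cc (kb n j) x)) := by
    intro x
    unfold pf
    rw [Finset.mul_sum]
    refine Finset.sum_congr rfl fun i _ => ?_
    rw [Finset.mul_sum]
    refine Finset.sum_congr rfl fun j _ => ?_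
    show (1 / 2 + (∑ s : Fin (2 * n), w s * cc (kc n s) x) + ∑ l : Fin n, α * cc (ka n l) x) *
      (σ (i.val + j.val) * (α * cc (ka n i) x) * (α * cc (kb n j) x)) = _
    rw [add_mul, add_mul, Finset.sum_mul, Finset.sum_mul]
    congr 1
    · congr 1
      · ring
      · exact Finset.sum_congr rfl fun s _ => by ring
    · exact Finset.sum_congr rfl fun s _ => by ring
  have h2 : ∀ x, 6 * Pool.Agent.W682.TW.sq (Af n α x) =
      ∑ i : Fin n, (6 * α ^ 2) * (cc (ka n i) x * cc (ka n i) x) := by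
    intro x
    unfold Pool.Agent.W682.TW.sq
    rw [Finset.mul_sum]
    refine Finset.sum_congr rfl fun i _ => ?_
    show 6 * (α * cc (ka n i) x) ^ 2 = _
    ring
  have h3 : ∀ x, 6 * Pool.Agent.W682.TW.sq (Bf n α x) =
      ∑ i : Fin n, (6 * α ^ 2) * (cc (kb n i) x * cc (kb n i) x) := by
    intro x
    unfold Pool.Agent.W682.TW.sq
    rw [Finset.mul_sum]
    refine Finset.sum_congr rfl fun i _ => ?_
    show 6 * (α * cc (kb n i) x) ^ 2 = _
    ring
  have hab : ∀ i j : Fin n, HI (fun x => cc (ka n i) x * cc (kb n j) x) 0 := fun i j =>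
    ⟨(cc_cont _).mul (cc_cont _), int_ab n hn i j⟩
  have hcab : ∀ (s : Fin (2 * n)) (i j : Fin n),
      HI (fun x => cc (kc n s) x * cc (ka n i) x * cc (kb n j) x)
        (if s.val = i.val + j.val then 1 / 4 else 0) := fun s i j =>
    ⟨((cc_cont _).mul (cc_cont _)).mul (cc_cont _), int_cab n s i j⟩
  have haab : ∀ (l i j : Fin n),
      HI (fun x => cc (ka n l) x * cc (ka n i) x * cc (kb n j) x) 0 := fun l i j =>
    ⟨((cc_cont _).mul (cc_cont _)).mul (cc_cont _), int_aab n l i j⟩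
  have haa : ∀ i : Fin n, HI (fun x => cc (ka n i) x * cc (ka n i) x) (1 / 2) := fun i =>
    ⟨(cc_cont _).mul (cc_cont _), by rw [int_aa, if_pos rfl]⟩
  have hbb : ∀ i : Fin n, HI (fun x => cc (kb n i) x * cc (kb n i) x) (1 / 2) := fun i =>
    ⟨(cc_cont _).mul (cc_cont _), int_bb n i⟩
  have H := ((HI.sum (Finset.univ : Finset (Fin n)) (fun i _ =>
      HI.sum (Finset.univ : Finset (Fin n)) (fun j _ =>
        ((hab i j).mulc (σ (i.val + j.val) * α ^ 2 / 2)).add
          (HI.sum (Finset.univ : Finset (Fin (2 * n))) (fun s _ =>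
            (hcab s i j).mulc (σ (i.val + j.val) * α ^ 2 * w s))) |>.add
          (HI.sum (Finset.univ : Finset (Fin n)) (fun l _ =>
            (haab l i j).mulc (σ (i.val + j.val) * α ^ 3)))))).add
    (HI.sum (Finset.univ : Finset (Fin n)) (fun i _ => (haa i).mulc (6 * α ^ 2)))).add
    (HI.sum (Finset.univ : Finset (Fin n)) (fun i _ => (hbb i).mulc (6 * α ^ 2)))
  refine H.to (fun x => by rw [h1, h2, h3]) ?_
  have k2 : ∀ i j : Fin n,
      (σ (i.val + j.val) * α ^ 2 / 2 * 0 + ∑ s : Fin (2 * n), σ (i.val + j.val) * α ^ 2 * w s *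
        (if s.val = i.val + j.val then 1 / 4 else 0) + ∑ l : Fin n, σ (i.val + j.val) * α ^ 3 * 0)
      = -(7 / 16384) * α ^ 2 := by
    intro i j
    have hij : i.val + j.val < 2 * n := by omega
    rw [Finset.sum_eq_single (⟨i.val + j.val, hij⟩ : Fin (2 * n))]
    · rw [if_pos rfl]
      have hs : σ (i.val + j.val) * σ (i.val + j.val) = 1 := by
        rcases hσ (i.val + j.val) with h | h <;> rw [h] <;> norm_num
      simp only [hw, mul_zero, Finset.sum_const_zero, add_zero, zero_add]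
      linear_combination (-(7 / 16384) * α ^ 2) * hs
    · intro s _ hs
      rw [if_neg, mul_zero]
      intro h
      exact hs (Fin.ext h)
    · intro h; exact absurd (Finset.mem_univ _) h
  simp_rw [k2]
  simp only [Finset.sum_const, Finset.card_univ, Fintype.card_fin, nsmul_eq_mul]
  rw [hnR]
  ring

lemma second (σ : ℕ → ℝ) (α : ℝ) :
    (∫ x in cube, ((∑ s : Fin (2 * n), (amp n σ α (.inl (.inr s))
        * Real.cos (ph n (.inl (.inr s)) x)) ^ 2) + Pool.Agent.W682.TW.sq (Af n α x)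
      - (thx n σ α x - 1 / 2) ^ 2 - (thx n σ α x - 1 / 2))) = 0 := by
  set w : Fin (2 * n) → ℝ := fun s => -(7 / 4096) * σ s.val with hw
  have h0 : ∀ x, thx n σ α x - 1 / 2 =
      (∑ s : Fin (2 * n), w s * cc (kc n s) x) + ∑ l : Fin n, α * cc (ka n l) x := by
    intro x
    show (1 / 2 + (∑ s : Fin (2 * n), w s * cc (kc n s) x) + ∑ l : Fin n, α * cc (ka n l) x)
      - 1 / 2 = _
    ring
  have h1 : ∀ x, (∑ s : Fin (2 * n), (amp n σ α (.inl (.inr s))
        * Real.cos (ph n (.inl (.inr s)) x)) ^ 2) =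
      ∑ s : Fin (2 * n), (w s ^ 2) * (cc (kc n s) x * cc (kc n s) x) := by
    intro x
    refine Finset.sum_congr rfl fun s _ => ?_
    show (w s * cc (kc n s) x) ^ 2 = _
    ring
  have h2 : ∀ x, Pool.Agent.W682.TW.sq (Af n α x) =
      ∑ i : Fin n, (α ^ 2) * (cc (ka n i) x * cc (ka n i) x) := by
    intro x
    unfold Pool.Agent.W682.TW.sq
    refine Finset.sum_congr rfl fun i _ => ?_
    show (α * cc (ka n i) x) ^ 2 = _
    ring
  have h3 : ∀ x, ((∑ s : Fin (2 * n), w s * cc (kc n s) x) + ∑ l : Fin n, α * cc (ka n l) x) ^ 2 =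
      (∑ s : Fin (2 * n), ∑ t : Fin (2 * n), (w s * w t) * (cc (kc n s) x * cc (kc n t) x))
      + (∑ s : Fin (2 * n), ∑ l : Fin n, (2 * w s * α) * (cc (kc n s) x * cc (ka n l) x))
      + (∑ l : Fin n, ∑ l' : Fin n, (α * α) * (cc (ka n l) x * cc (ka n l') x)) := by
    intro x
    have e1 : (∑ s : Fin (2 * n), ∑ t : Fin (2 * n), (w s * w t) *
        (cc (kc n s) x * cc (kc n t) x)) =
        (∑ s : Fin (2 * n), w s * cc (kc n s) x) * ∑ s : Fin (2 * n), w s * cc (kc n s) x := by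
      rw [Finset.sum_mul_sum]
      exact Finset.sum_congr rfl fun s _ => Finset.sum_congr rfl fun t _ => by ring
    have e2 : (∑ s : Fin (2 * n), ∑ l : Fin n, (2 * w s * α) * (cc (kc n s) x * cc (ka n l) x)) =
        2 * ((∑ s : Fin (2 * n), w s * cc (kc n s) x) * ∑ l : Fin n, α * cc (ka n l) x) := by
      rw [Finset.sum_mul_sum, Finset.mul_sum]
      refine Finset.sum_congr rfl fun s _ => ?_
      rw [Finset.mul_sum]
      exact Finset.sum_congr rfl fun t _ => by ring
    have e3 : (∑ l : Fin n, ∑ l' : Fin n, (α * α) * (cc (ka n l) x * cc (ka n l') x)) =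
        (∑ l : Fin n, α * cc (ka n l) x) * ∑ l : Fin n, α * cc (ka n l) x := by
      rw [Finset.sum_mul_sum]
      exact Finset.sum_congr rfl fun s _ => Finset.sum_congr rfl fun t _ => by ring
    rw [e1, e2, e3]
    ring
  have hcc2 : ∀ s t : Fin (2 * n), HI (fun x => cc (kc n s) x * cc (kc n t) x)
      (if s = t then 1 / 2 else 0) := fun s t =>
    ⟨(cc_cont _).mul (cc_cont _), int_cc' n s t⟩
  have hca2 : ∀ (s : Fin (2 * n)) (l : Fin n), HI (fun x => cc (kc n s) x * cc (ka n l) x) 0 :=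
    fun s l => ⟨(cc_cont _).mul (cc_cont _), int_ca n s l⟩
  have haa2 : ∀ l l' : Fin n, HI (fun x => cc (ka n l) x * cc (ka n l') x)
      (if l = l' then 1 / 2 else 0) := fun s t =>
    ⟨(cc_cont _).mul (cc_cont _), int_aa n s t⟩
  have ha : ∀ l : Fin n, HI (fun x => cc (ka n l) x) 0 := fun l => ⟨cc_cont _, int_a n l⟩
  have hc : ∀ l : Fin (2 * n), HI (fun x => cc (kc n l) x) 0 := fun l => ⟨cc_cont _, int_c n l⟩
  have H := (((HI.sum (Finset.univ : Finset (Fin (2 * n))) (fun s _ =>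
      (hcc2 s s).mulc (w s ^ 2))).add
    (HI.sum (Finset.univ : Finset (Fin n)) (fun i _ => (haa2 i i).mulc (α ^ 2)))).sub
    (((HI.sum (Finset.univ : Finset (Fin (2 * n))) (fun s _ =>
        HI.sum (Finset.univ : Finset (Fin (2 * n))) (fun t _ => (hcc2 s t).mulc (w s * w t)))).add
      (HI.sum (Finset.univ : Finset (Fin (2 * n))) (fun s _ =>
        HI.sum (Finset.univ : Finset (Fin n)) (fun l _ =>
          (hca2 s l).mulc (2 * w s * α))))).add
      (HI.sum (Finset.univ : Finset (Fin n)) (fun l _ =>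
        HI.sum (Finset.univ : Finset (Fin n)) (fun l' _ => (haa2 l l').mulc (α * α)))))).sub
    ((HI.sum (Finset.univ : Finset (Fin (2 * n))) (fun s _ => (hc s).mulc (w s))).add
      (HI.sum (Finset.univ : Finset (Fin n)) (fun l _ => (ha l).mulc α)))
  refine H.to (fun x => by rw [h0, h1, h2, h3]) ?_
  have k1 : ∀ s : Fin (2 * n), ∑ t : Fin (2 * n), (w s * w t) *
      (if s = t then 1 / 2 else 0) = w s ^ 2 * (1 / 2) := by
    intro s
    rw [Finset.sum_eq_single s]
    · rw [if_pos rfl]; ring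
    · intro t _ ht
      rw [if_neg (Ne.symm ht), mul_zero]
    · intro h; exact absurd (Finset.mem_univ _) h
  have k3 : ∀ l : Fin n, ∑ l' : Fin n, (α * α) *
      (if l = l' then 1 / 2 else 0) = α ^ 2 * (1 / 2) := by
    intro s
    rw [Finset.sum_eq_single s]
    · rw [if_pos rfl]; ring
    · intro t _ ht
      rw [if_neg (Ne.symm ht), mul_zero]
    · intro h; exact absurd (Finset.mem_univ _) h
  simp_rw [k1, k3]
  simp

theorem main : S_VAL := by
  intro n σ α hn hσ
  have hnR : (n : ℝ) = 16384 := by rw [hn]; norm_num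
  have hn1 : 1 ≤ n := by
    by_contra h
    have h0 : n = 0 := by omega
    rw [h0] at hnR
    norm_num at hnR
  clear hn
  exact ⟨first hn1 hnR σ α hσ, second σ α⟩

end Pool.Agent.W135.TW.Val
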